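import Pool.Agent.V5helper42.RS.E
import Pool.Agent.V5helper42.EH.FU

set_option autoImplicit false

/-!
# Progressions in the random sieve model (helper42, for helper33)
-/

namespace Pool.Agent.V5helper42.EH

open Pool.Agent.V5helper42.RS

open Finset MeasureTheory ProbabilityTheory
open scoped ENNReal
open Pool.Agent.W41 (V V_pos V_le_one fac_pos)

/-- the fundamental lemma at the level `w` for the length `y` -/
def FLw (ε : ℝ) (w y : ℕ) : Prop := ∀ P : Finset ℕ, (∀ p ∈ P, p.Prime ∧ p ≤ w) → ∀ ρ : ℕ → ℕ, (∀ p ∈ P, ρ p < p) →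
    |((((Icc 1 y).filter (fun n : ℕ => ∀ p ∈ P, n % p ≠ ρ p)).card : ℕ) : ℝ) - y * V P| ≤ ε * (y * V P)

section

variable {Ω : Type*} [MeasurableSpace Ω]

theorem prob_P (μ : Measure Ω) [IsProbabilityMeasure μ] (a : ℕ → Ω → ℕ) (hm : ∀ p, Measurable (a p))
    (hi : iIndepFun a μ) (hu : ∀ p : ℕ, p.Prime → ∀ r < p, μ {ω | a p ω = r} = (p : ℝ≥0∞)⁻¹)
    (ε : ℝ) (hε : 0 < ε) (hε1 : ε ≤ 1) (w y : ℕ) (hw1 : 1 ≤ w) (hwy : w ≤ y) (hFL : FLw ε w y)
    (T : Finset ℕ) (hT : ∀ p ∈ T, p.Prime) (hwV : w ≤ y * V T) (m : ℕ) :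
    μ {ω | ¬ |(((Ioc m (m + y)).filter (fun n => ∀ p ∈ T, n % p ≠ a p ω)).card : ℝ) - y * V T| ≤
      3 * ε * (y * V T)} ≤ ENNReal.ofReal (2 * Real.exp (-(ε ^ 2 * w * V T ^ 2 / 16))) := by
  have hw0' : (0 : ℝ) < w := by exact_mod_cast hw1
  have hy0 : (0 : ℝ) < y := by exact_mod_cast (by omega : 0 < y)
  obtain ⟨T1, hT1⟩ : ∃ T1 : Finset ℕ, T1 = T.filter (fun p => p ≤ w) := ⟨_, rfl⟩
  obtain ⟨T2, hT2⟩ : ∃ T2 : Finset ℕ, T2 = T.filter (fun p => ¬ p ≤ w) := ⟨_, rfl⟩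
  have hd : Disjoint T1 T2 := by rw [hT1, hT2]; exact disjoint_filter_filter_not _ _ _
  have hun : T = T1 ∪ T2 := by rw [hT1, hT2]; exact (filter_union_filter_not_eq _ _).symm
  have h1 : ∀ p ∈ T1, p.Prime ∧ p ≤ w := by
    intro p hp
    rw [hT1, mem_filter] at hp
    exact ⟨hT p hp.1, hp.2⟩
  have h2 : ∀ p ∈ T2, p.Prime ∧ w < p := by
    intro p hp
    rw [hT2, mem_filter] at hp
    exact ⟨hT p hp.1, by omega⟩
  have hVV : V T = V T1 * V T2 := by
    conv_lhs => rw [hun]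
    unfold V
    rw [prod_union hd]
  have hV0 : 0 < V T := V_pos hT
  have hV2 : 0 < V T2 := V_pos fun p hp => (h2 p hp).1
  have hV1 : 0 < V T1 := V_pos fun p hp => (h1 p hp).1
  have hV11 : V T1 ≤ 1 := V_le_one fun p hp => (h1 p hp).1
  have hSS : SS y T2.toList ≤ 2 * y / w := by
    rw [SS_toList]
    have e : ∑ p ∈ T2, ((y : ℝ) / p + 1) / p = y * ∑ p ∈ T2, 1 / ((p : ℝ) * p) + ∑ p ∈ T2, 1 / (p : ℝ) := by
      rw [mul_sum, ← sum_add_distrib]
      apply sum_congr rfl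
      intro p hp
      have hp0 : (p : ℝ) ≠ 0 := by exact_mod_cast (h2 p hp).1.ne_zero
      field_simp
    rw [e]
    have h3 := mul_le_mul_of_nonneg_left (sum_inv_sq w hw1 T2 fun p hp => (h2 p hp).2) hy0.le
    have h4 := sum_inv_le T2 fun p hp => (h2 p hp).1
    have h5 : 1 / V T2 ≤ y / w := by
      rw [div_le_div_iff₀ hV2 hw0', one_mul]
      refine hwV.trans ?_
      apply mul_le_mul_of_nonneg_left _ hy0.le
      rw [hVV]
      exact mul_le_of_le_one_left hV2.le hV11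
    have h6 : (y : ℝ) * (1 / w) = y / w := by ring
    have h7 : 2 * (y : ℝ) / w = y / w + y / w := by ring
    linarith
  have hlist : ∀ ρ : ℕ → ℕ, S ρ (T1.toList ++ T2.toList) (Ioc m (m + y)) =
      (Ioc m (m + y)).filter (fun n => ∀ p ∈ T, n % p ≠ ρ p) := by
    intro ρ
    unfold S
    apply filter_congr
    intro n _
    rw [hun]
    simp only [List.mem_append, mem_toList, mem_union]
  have ht := tails m y w hw1 hwy T1.toList T2.toList (fun p hp => (h1 p (mem_toList.1 hp)).1.pos)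
    (fun p hp => (h1 p (mem_toList.1 hp)).2) (nodup_toList _) (fun p hp => (h2 p (mem_toList.1 hp)).2) hSS
    ε (V T) hε hε1 (by rw [PP_toList, PP_toList]; exact hVV) hV0 (by
      intro ρ hρ
      obtain ⟨ρ', hρ', he⟩ := card_shift m y T1 (fun p hp => (h1 p hp).1) ρ (fun p hp => hρ p (mem_toList.2 hp))
      have h3 := hFL T1 h1 ρ' hρ'
      rw [← he] at h3
      rw [PP_toList]
      have h4 : S ρ T1.toList (Ioc m (m + y)) = (Ioc m (m + y)).filter (fun n => ∀ p ∈ T1, n % p ≠ ρ p) := by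
        unfold S
        simp only [mem_toList]
      rw [h4]
      exact h3)
  have hα0 : 0 ≤ ε * V T / 16 * w / y := by positivity
  have hp := prob_le μ a hm hi hu (T1.toList ++ T2.toList)
    (List.nodup_append.2 ⟨nodup_toList _, nodup_toList _, by
      intro p hp q hq hpq
      subst hpq
      exact (disjoint_left.1 hd (mem_toList.1 hp)) (mem_toList.1 hq)⟩)
    (by
      intro p hp
      rcases List.mem_append.1 hp with h | h
      · exact (h1 p (mem_toList.1 h)).1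
      · exact (h2 p (mem_toList.1 h)).1)
    (fun ρ => ¬ |((S ρ (T1.toList ++ T2.toList) (Ioc m (m + y))).card : ℝ) - y * V T| ≤ 3 * ε * (y * V T))
    (by
      intro ρ ρ' h
      rw [S_congr _ h]
      exact id)
    (fun ρ => Real.exp (ε * V T / 16 * w / y * (((S ρ (T1.toList ++ T2.toList) (Ioc m (m + y))).card : ℝ) - (1 + 3 * ε) * (y * V T))) +
      Real.exp (ε * V T / 16 * w / y * ((1 - 3 * ε) * (y * V T) - ((S ρ (T1.toList ++ T2.toList) (Ioc m (m + y))).card : ℝ))))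
    (fun ρ => by positivity)
    (by
      intro ρ hρ
      rw [abs_le, not_and_or, not_le, not_le] at hρ
      rcases hρ with h | h
      · have h3 : 1 ≤ Real.exp (ε * V T / 16 * w / y * ((1 - 3 * ε) * (y * V T) - ((S ρ (T1.toList ++ T2.toList) (Ioc m (m + y))).card : ℝ))) :=
          Real.one_le_exp (mul_nonneg hα0 (by linarith))
        have h4 := Real.exp_pos (ε * V T / 16 * w / y * (((S ρ (T1.toList ++ T2.toList) (Ioc m (m + y))).card : ℝ) - (1 + 3 * ε) * (y * V T)))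
        linarith
      · have h3 : 1 ≤ Real.exp (ε * V T / 16 * w / y * (((S ρ (T1.toList ++ T2.toList) (Ioc m (m + y))).card : ℝ) - (1 + 3 * ε) * (y * V T))) :=
          Real.one_le_exp (mul_nonneg hα0 (by linarith))
        have h4 := Real.exp_pos (ε * V T / 16 * w / y * ((1 - 3 * ε) * (y * V T) - ((S ρ (T1.toList ++ T2.toList) (Ioc m (m + y))).card : ℝ)))
        linarith)
    _ ht
  simp only [hlist] at hp
  exact hp


/-- the class modulo `p` of the `k` with `c + q k ≡ r` -/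
noncomputable def tw (q c p r : ℕ) : ℕ :=
  if h : ∃ k < p, (c + q * k) % p = r then h.choose else 0

lemma tw_spec {q c p r : ℕ} (hp : p.Prime) (hq : ¬ p ∣ q) (hr : r < p) :
    tw q c p r < p ∧ (c + q * tw q c p r) % p = r := by
  have hcop : Nat.Coprime q p := ((Nat.Prime.coprime_iff_not_dvd hp).2 hq).symm
  have h : ∃ k < p, (c + q * k) % p = r := by
    have hinj : Set.InjOn (fun k => (c + q * k) % p) (range p : Finset ℕ) := by
      intro k hk l hl hkl
      rw [mem_coe, mem_range] at hk hl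
      have h1 : c + q * k ≡ c + q * l [MOD p] := hkl
      have h2 : q * k ≡ q * l [MOD p] := Nat.ModEq.add_left_cancel' c h1
      have h3 : k ≡ l [MOD p] := Nat.ModEq.cancel_left_of_coprime (by rw [Nat.gcd_comm]; exact hcop) h2
      exact Nat.ModEq.eq_of_lt_of_lt h3 hk hl
    have hmaps : Set.MapsTo (fun k => (c + q * k) % p) (range p : Finset ℕ) (range p : Finset ℕ) := by
      intro k _
      rw [mem_coe, mem_range]
      exact Nat.mod_lt _ hp.pos
    have hsurj := Finset.surjOn_of_injOn_of_card_le (s := range p) (t := range p) (fun k => (c + q * k) % p)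
      hmaps hinj le_rfl
    obtain ⟨k, hk, hk2⟩ := hsurj (mem_coe.2 (mem_range.2 hr))
    exact ⟨k, by simpa using hk, hk2⟩
  unfold tw
  rw [dif_pos h]
  exact h.choose_spec

lemma tw_iff {q c p r k : ℕ} (hp : p.Prime) (hq : ¬ p ∣ q) (hr : r < p) :
    (c + q * k) % p = r ↔ k % p = tw q c p r := by
  obtain ⟨h1, h2⟩ := tw_spec (c := c) hp hq hr
  have hcop : Nat.Coprime q p := ((Nat.Prime.coprime_iff_not_dvd hp).2 hq).symm
  constructor
  · intro h
    have h3 : c + q * k ≡ c + q * tw q c p r [MOD p] := by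
      unfold Nat.ModEq; rw [h, h2]
    have h4 : q * k ≡ q * tw q c p r [MOD p] := Nat.ModEq.add_left_cancel' c h3
    have h5 : k ≡ tw q c p r [MOD p] := Nat.ModEq.cancel_left_of_coprime (by rw [Nat.gcd_comm]; exact hcop) h4
    rw [h5, Nat.mod_eq_of_lt h1]
  · intro h
    have h3 : k ≡ tw q c p r [MOD p] := by
      unfold Nat.ModEq; rw [h, Nat.mod_eq_of_lt h1]
    have h4 : c + q * k ≡ c + q * tw q c p r [MOD p] := (h3.mul_left q).add_left c
    rw [h4, h2]

/-- the new classes -/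
noncomputable def na (q c : ℕ) (a : ℕ → Ω → ℕ) (p : ℕ) (ω : Ω) : ℕ :=
  if p.Prime ∧ ¬ p ∣ q then tw q c p (a p ω) else a p ω

theorem prob_AP (μ : Measure Ω) [IsProbabilityMeasure μ] (a : ℕ → Ω → ℕ) (hm : ∀ p, Measurable (a p))
    (hi : iIndepFun a μ) (hu : ∀ p : ℕ, p.Prime → ∀ r < p, μ {ω | a p ω = r} = (p : ℝ≥0∞)⁻¹)
    (hlt : ∀ᵐ ω ∂μ, ∀ p : ℕ, p.Prime → a p ω < p)
    (ε : ℝ) (hε : 0 < ε) (hε1 : ε ≤ 1) (w y : ℕ) (hw1 : 1 ≤ w) (hwy : w ≤ y) (hFL : FLw ε w y)
    (q c : ℕ) (T : Finset ℕ) (hT : ∀ p ∈ T, p.Prime) (hTq : ∀ p ∈ T, ¬ p ∣ q) (hwV : w ≤ y * V T) (m : ℕ) :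
    μ {ω | ¬ |(((Ioc m (m + y)).filter (fun k => ∀ p ∈ T, (c + q * k) % p ≠ a p ω)).card : ℝ) - y * V T| ≤
      3 * ε * (y * V T)} ≤ ENNReal.ofReal (2 * Real.exp (-(ε ^ 2 * w * V T ^ 2 / 16))) := by
  have hna : ∀ p : ℕ, na q c a p = (fun r => if p.Prime ∧ ¬ p ∣ q then tw q c p r else r) ∘ a p := by
    intro p; funext ω
    simp only [na, Function.comp]
  have hm' : ∀ p, Measurable (na q c a p) := by
    intro p
    rw [hna]
    exact (Measurable.of_discrete).comp (hm p)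
  have hi' : iIndepFun (na q c a) μ := by
    have := hi.comp (fun p r => if p.Prime ∧ ¬ p ∣ q then tw q c p r else r) (fun p => Measurable.of_discrete)
    have e : na q c a = fun p => (fun r => if p.Prime ∧ ¬ p ∣ q then tw q c p r else r) ∘ a p := by
      funext p; exact hna p
    rw [e]
    exact this
  have hu' : ∀ p : ℕ, p.Prime → ∀ r < p, μ {ω | na q c a p ω = r} = (p : ℝ≥0∞)⁻¹ := by
    intro p hp r hr
    by_cases hpq : p ∣ q
    · have e : {ω | na q c a p ω = r} = {ω | a p ω = r} := by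
        ext ω; simp [na, hpq]
      rw [e]
      exact hu p hp r hr
    · have hs : (c + q * r) % p < p := Nat.mod_lt _ hp.pos
      rw [← hu p hp _ hs]
      apply measure_congr
      filter_upwards [hlt] with ω hω
      have h1 := hω p hp
      have h2 : na q c a p ω = tw q c p (a p ω) := by simp [na, hp, hpq]
      apply propext
      change na q c a p ω = r ↔ a p ω = (c + q * r) % p
      rw [h2]
      constructor
      · intro h
        rw [← h]
        exact (tw_spec hp hpq h1).2.symm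
      · intro h
        have h3 := (tw_iff (c := c) (k := r) hp hpq h1).1 h.symm
        rw [← h3, Nat.mod_eq_of_lt hr]
  have key := prob_P μ (na q c a) hm' hi' hu' ε hε hε1 w y hw1 hwy hFL T hT hwV m
  refine le_trans (le_of_eq ?_) key
  apply measure_congr
  filter_upwards [hlt] with ω hω
  apply propext
  have e : (Ioc m (m + y)).filter (fun k => ∀ p ∈ T, (c + q * k) % p ≠ a p ω) =
      (Ioc m (m + y)).filter (fun k => ∀ p ∈ T, k % p ≠ na q c a p ω) := by
    apply filter_congr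
    intro k _
    constructor
    · intro h p hp hk
      have h2 : na q c a p ω = tw q c p (a p ω) := by simp [na, hT p hp, hTq p hp]
      rw [h2] at hk
      exact h p hp ((tw_iff (hT p hp) (hTq p hp) (hω p (hT p hp))).2 hk)
    · intro h p hp hk
      have h2 : na q c a p ω = tw q c p (a p ω) := by simp [na, hT p hp, hTq p hp]
      apply h p hp
      rw [h2]
      exact (tw_iff (hT p hp) (hTq p hp) (hω p (hT p hp))).1 hk
  change (¬ |(((Ioc m (m + y)).filter (fun k => ∀ p ∈ T, (c + q * k) % p ≠ a p ω)).card : ℝ) - y * V T| ≤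
      3 * ε * (y * V T)) ↔ (¬ |(((Ioc m (m + y)).filter (fun k => ∀ p ∈ T, k % p ≠ na q c a p ω)).card : ℝ) - y * V T| ≤
      3 * ε * (y * V T))
  rw [e]

end

/-- the statement S_AP of helper33 -/
theorem t_AP : ∃ C0 : ℕ, 2 ≤ C0 ∧ ∀ (Ω : Type) [MeasurableSpace Ω] (μ : Measure Ω) [IsProbabilityMeasure μ]
    (a : ℕ → Ω → ℕ), (∀ p, Measurable (a p)) → iIndepFun a μ →
    (∀ p : ℕ, p.Prime → ∀ r < p, μ {ω | a p ω = r} = (p : ℝ≥0∞)⁻¹) → ∀ b w y : ℕ, C0 ≤ b → C0 ≤ w → b ≤ w →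
    w ^ (C0 * b) ≤ y → ∀ T : Finset ℕ, (∀ p ∈ T, p.Prime) → (w : ℝ) ≤ y * V T → ∀ q c : ℕ, 1 ≤ q →
    (∀ p ∈ T, ¬ p ∣ q) → ∀ m : ℕ,
    μ {ω | ¬ |(((Ioc m (m + y)).filter (fun k => ∀ p ∈ T, (c + q * k) % p ≠ a p ω)).card : ℝ) - y * V T| ≤
      3 * (4 * (1 / 2) ^ b) * (y * V T)} ≤
      ENNReal.ofReal (2 * Real.exp (-((4 * (1 / 2 : ℝ) ^ b) ^ 2 * w * V T ^ 2 / 16))) := by
  obtain ⟨C1, M, Y0, hC1, hM1, hY0, hF⟩ := fundU
  refine ⟨4 * C1 + 5 + 2 * M + Y0, by omega, ?_⟩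
  intro Ω _ μ _ a hm hi hu b w y hb hw hbw hwy T hT hwV q c hq hTq m
  have hb1 : C1 ≤ b := by omega
  have hb2 : 2 * M ≤ b := by omega
  have hb3 : 2 ≤ b := by omega
  have hw2 : 2 ≤ w := by omega
  have hε : (0 : ℝ) < 4 * (1 / 2) ^ b := by positivity
  have hε1 : (4 : ℝ) * (1 / 2) ^ b ≤ 1 := by
    have h1 : ((1 : ℝ) / 2) ^ b ≤ (1 / 2) ^ 2 := pow_le_pow_of_le_one (by norm_num) (by norm_num) hb3
    linarith
  have hbR : (0 : ℝ) < b := by exact_mod_cast (by omega : 0 < b)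
  have hMb : ((M : ℝ) / b) ^ b ≤ (4 * (1 / 2) ^ b) / 2 := by
    have h1 : (M : ℝ) / b ≤ 1 / 2 := by
      rw [div_le_div_iff₀ hbR (by norm_num)]
      have : (2 * M : ℝ) ≤ b := by exact_mod_cast hb2
      linarith
    have h2 : ((M : ℝ) / b) ^ b ≤ (1 / 2) ^ b := pow_le_pow_left₀ (by positivity) h1 b
    have h3 : (0 : ℝ) < (1 / 2) ^ b := by positivity
    linarith
  have h2w : 2 / (4 * (1 / 2 : ℝ) ^ b) ≤ (w : ℝ) ^ b := by
    have h1 : (2 : ℝ) ^ b ≤ (w : ℝ) ^ b := pow_le_pow_left₀ (by norm_num) (by exact_mod_cast hw2) b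
    have h2 : 2 / (4 * (1 / 2 : ℝ) ^ b) = 2 ^ b / 2 := by
      rw [one_div, inv_pow]
      field_simp
      norm_num
    rw [h2]
    have h3 : (0 : ℝ) < 2 ^ b := by positivity
    linarith
  have hpow : w ^ (4 * (C1 * b) + 5) ≤ y := by
    refine le_trans (Nat.pow_le_pow_right (by omega) ?_) hwy
    nlinarith
  have hwy1 : w ≤ y := by
    refine le_trans ?_ hpow
    exact Nat.le_self_pow (by omega) w
  have hFL : FLw (4 * (1 / 2) ^ b) w y := by
    intro P hP ρ hρ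
    exact hF b (4 * (1 / 2) ^ b) hb1 hb2 hε hMb w (by omega) h2w y hpow P hP ρ hρ
  exact prob_AP μ a hm hi hu (ae_lt μ a hm hu) (4 * (1 / 2) ^ b) hε hε1 w y (by omega) hwy1 hFL q c T hT hTq hwV m

end Pool.Agent.V5helper42.EH
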